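import Pool.Agent.N728.SP.Def
import Pool.Agent.H398R2.BA2

/-!
Project SP (helper728), task DISC: the discrepancies needed in the main term (helper124).
-/

set_option autoImplicit false

namespace Pool.Agent.N124.SP

open Finset Filter Pool.Agent.H410R2 Pool.Agent.H378R2 Pool.Agent.H398R2.BV Pool.Agent.N728.SP

namespace DISCaux

lemma totient_term (f k : ℕ) (hf : 1 ≤ f) (hk : 1 ≤ k) :
    1 / (Nat.totient (f * k) : ℝ) ≤ 1 / (Nat.totient f : ℝ) * (1 / (Nat.totient k : ℝ)) := by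
  have h1 : (0 : ℝ) < Nat.totient f := by exact_mod_cast Nat.totient_pos.2 (by omega)
  have h2 : (0 : ℝ) < Nat.totient k := by exact_mod_cast Nat.totient_pos.2 (by omega)
  have h3 : (Nat.totient f : ℝ) * Nat.totient k ≤ Nat.totient (f * k) := by
    exact_mod_cast Nat.totient_super_multiplicative f k
  rw [one_div_mul_one_div]
  exact one_div_le_one_div_of_le (by positivity) h3

/-- multiples of `f` -/
lemma mult_sum (f F : ℕ) (hf : 1 ≤ f) :
    ∑ m ∈ (Icc 1 F).filter (fun m => f ∣ m), 1 / (Nat.totient m : ℝ) ≤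
      1 / (Nat.totient f : ℝ) * ∑ k ∈ Icc 1 F, 1 / (Nat.totient k : ℝ) := by
  rw [mul_sum]
  have h1 : ∀ m ∈ (Icc 1 F).filter (fun m => f ∣ m), 1 / (Nat.totient m : ℝ) ≤
      1 / (Nat.totient f : ℝ) * (1 / (Nat.totient (m / f) : ℝ)) := by
    intro m hm
    rw [mem_filter, mem_Icc] at hm
    obtain ⟨⟨h2, h3⟩, k, rfl⟩ := hm
    rw [Nat.mul_div_cancel_left k (by omega)]
    refine totient_term f k hf ?_
    rcases Nat.eq_zero_or_pos k with h | h
    · rw [h, mul_zero] at h2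
      omega
    · exact h
  refine (sum_le_sum h1).trans ?_
  have h2 : Set.InjOn (fun m => m / f) ((Icc 1 F).filter (fun m => f ∣ m) : Finset ℕ) := by
    intro m hm m' hm' h
    simp only [coe_filter, Set.mem_setOf_eq] at hm hm'
    obtain ⟨k, hk⟩ := hm.2
    obtain ⟨k', hk'⟩ := hm'.2
    simp only [hk, hk'] at h ⊢
    rw [Nat.mul_div_cancel_left k (by omega), Nat.mul_div_cancel_left k' (by omega)] at h
    rw [h]
  rw [← sum_image (f := fun k => 1 / (Nat.totient f : ℝ) * (1 / (Nat.totient k : ℝ))) h2]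
  refine sum_le_sum_of_subset_of_nonneg ?_ fun k _ _ => by positivity
  intro k hk
  rw [mem_image] at hk
  obtain ⟨m, hm, rfl⟩ := hk
  rw [mem_filter, mem_Icc] at hm
  rw [mem_Icc]
  refine ⟨?_, (Nat.div_le_self _ _).trans hm.1.2⟩
  exact (Nat.one_le_div_iff (by omega)).2 (Nat.le_of_dvd (by omega) hm.2)

/-- interchange of the sums over the moduli and over the conductors -/
lemma swap (T : ℕ → ℝ) (hT : ∀ f, 0 ≤ T f) (F : ℕ) :
    ∑ m ∈ Icc 1 F, (1 / (Nat.totient m : ℝ)) * ∑ f ∈ m.divisors.filter (fun f => f ≠ 1), T f ≤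
      (∑ f ∈ Icc 2 F, (1 / (Nat.totient f : ℝ)) * T f) * ∑ k ∈ Icc 1 F, 1 / (Nat.totient k : ℝ) := by
  have h1 : ∀ m ∈ Icc 1 F, (1 / (Nat.totient m : ℝ)) * ∑ f ∈ m.divisors.filter (fun f => f ≠ 1), T f =
      ∑ f ∈ Icc 2 F, if f ∣ m then (1 / (Nat.totient m : ℝ)) * T f else 0 := by
    intro m hm
    rw [mem_Icc] at hm
    rw [mul_sum, ← sum_filter]
    apply sum_congr _ fun _ _ => rfl
    ext f
    rw [mem_filter, Nat.mem_divisors, mem_filter, mem_Icc]
    constructor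
    · rintro ⟨⟨h2, h3⟩, h4⟩
      have h5 := Nat.le_of_dvd (by omega) h2
      have h6 : f ≠ 0 := fun h => h3 (by rw [h] at h2; exact Nat.eq_zero_of_zero_dvd h2)
      exact ⟨⟨by omega, by omega⟩, h2⟩
    · rintro ⟨⟨h2, h3⟩, h4⟩
      exact ⟨⟨h4, by omega⟩, by omega⟩
  rw [sum_congr rfl h1, sum_comm, sum_mul]
  refine sum_le_sum fun f hf => ?_
  rw [mem_Icc] at hf
  rw [← sum_filter, ← sum_mul]
  have h2 := mult_sum f F (by omega)
  calc (∑ m ∈ (Icc 1 F).filter (fun m => f ∣ m), 1 / (Nat.totient m : ℝ)) * T f ≤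
      (1 / (Nat.totient f : ℝ) * ∑ k ∈ Icc 1 F, 1 / (Nat.totient k : ℝ)) * T f :=
        mul_le_mul_of_nonneg_right h2 (hT f)
    _ = _ := by ring

/-- the values of an injective linear map -/
lemma lin_sum (H : ℕ → ℝ) (hH : ∀ m, 0 ≤ H m) (c V F : ℕ) (hc : 1 ≤ c) (hF : c * (2 * V) ≤ F) :
    ∑ x ∈ Ioc V (2 * V), H (c * x) ≤ ∑ m ∈ Icc 1 F, H m := by
  have h2 : Set.InjOn (fun x => c * x) (Ioc V (2 * V) : Finset ℕ) := by
    intro m _ m' _ h
    exact Nat.eq_of_mul_eq_mul_left (by omega) h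
  rw [← sum_image (f := H) h2]
  refine sum_le_sum_of_subset_of_nonneg ?_ fun k _ _ => hH k
  intro k hk
  rw [mem_image] at hk
  obtain ⟨x, hx, rfl⟩ := hk
  rw [mem_Ioc] at hx
  rw [mem_Icc]
  constructor
  · have : 1 * 1 ≤ c * x := Nat.mul_le_mul hc (by omega)
    omega
  · exact (Nat.mul_le_mul_left c hx.2).trans hF

end DISCaux

open DISCaux in
theorem t_DISC (h : S_BV) (hs : S_SIZ) : S_DISC := by
  obtain ⟨l1, h1⟩ := h
  obtain ⟨l2, h2⟩ := hs
  obtain ⟨k0, hk0⟩ := sum_pow_omega_div_totient 1 le_rfl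
  set K := 2 ^ k0 with hK
  have E2 : ∀ᶠ l : ℝ in atTop, 2 ^ (K + 1) * l ^ (40 * K) ≤ Real.exp (1 / 525 * l) := by
    have h3 := (isLittleO_pow_exp_pos_mul_atTop (k := 40 * K) (b := 1 / 525) (by norm_num)).bound
      (show (0 : ℝ) < 1 / 2 ^ (K + 1) by positivity)
    filter_upwards [h3, eventually_ge_atTop 0] with l hl hl0
    rw [Real.norm_of_nonneg (by positivity), Real.norm_of_nonneg (Real.exp_pos _).le] at hl
    calc 2 ^ (K + 1) * l ^ (40 * K) ≤ 2 ^ (K + 1) * (1 / 2 ^ (K + 1) * Real.exp (1 / 525 * l)) := by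
          gcongr
      _ = _ := by field_simp
  have E3 : ∀ᶠ l : ℝ in atTop, 8 * l ^ 120 ≤ Real.exp (59 / 60 * l) := by
    have h3 := (isLittleO_pow_exp_pos_mul_atTop (k := 120) (b := 59 / 60) (by norm_num)).bound
      (show (0 : ℝ) < 1 / 8 by norm_num)
    filter_upwards [h3, eventually_ge_atTop 0] with l hl hl0
    rw [Real.norm_of_nonneg (by positivity), Real.norm_of_nonneg (Real.exp_pos _).le] at hl
    linarith
  obtain ⟨l3, h3⟩ := eventually_atTop.1 (E2.and E3)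
  refine ⟨max (max l1 l2) (max l3 600), fun l hl hSC b => ?_⟩
  have hl1 : l1 ≤ l := (le_max_left _ _).trans ((le_max_left _ _).trans hl)
  have hl2 : l2 ≤ l := (le_max_right _ _).trans ((le_max_left _ _).trans hl)
  have hl3 : l3 ≤ l := (le_max_left _ _).trans ((le_max_right _ _).trans hl)
  have hl600 : 600 ≤ l := (le_max_right _ _).trans ((le_max_right _ _).trans hl)
  have hBV := h1 l hl1 hSC
  obtain ⟨-, hM, -, -, -, -, -, -, -⟩ := h2 l hl2
  obtain ⟨e2, e3⟩ := h3 l hl3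
  set X := XX l with hX
  set M := MM l with hMd
  set Q := QQ l with hQ
  set V := VV l with hV
  set F : ℕ := ⌊Real.exp (l ^ 40 / 2 - l / 9)⌋₊ with hF
  set T : ℕ → ℝ := fun f => ∑ ψ ∈ Prim f, ‖psiLog X f ψ‖ with hT
  have hT0 : ∀ f, 0 ≤ T f := fun f => sum_nonneg fun _ _ => norm_nonneg _
  have hl40 : 1 ≤ l ^ 40 := one_le_pow₀ (by linarith)
  have hX1 : 1 ≤ X := Real.one_le_exp (by positivity)
  have hlogX : Real.log X = l ^ 40 := Real.log_exp _
  have hM1 : 1 ≤ M := primorial_pos _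
  have hQle : (Q : ℝ) ≤ Real.exp (l / 100) := Nat.floor_le (Real.exp_pos _).le
  have hVle : (V : ℝ) ≤ Real.exp (l ^ 40 / 2 - l / 8) := Nat.floor_le (Real.exp_pos _).le
  have hFle : (F : ℝ) ≤ Real.exp (l ^ 40 / 2 - l / 9) := Nat.floor_le (Real.exp_pos _).le
  -- the moduli
  have hmod : ∀ e : ℕ, e ≤ Q → M ^ 3 * e * (2 * V) ≤ F := by
    intro e he
    rw [hF, Nat.le_floor_iff (Real.exp_pos _).le]
    push_cast
    have g1 : (M : ℝ) ^ 3 ≤ Real.exp (3 * (l / 1400)) := by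
      have : Real.exp (3 * (l / 1400)) = Real.exp (l / 1400) ^ 3 := by
        rw [← Real.exp_nat_mul]
        norm_num
      rw [this]
      gcongr
    have g2 : (e : ℝ) ≤ Real.exp (l / 100) := le_trans (by exact_mod_cast he) hQle
    have g3 : (2 : ℝ) ≤ Real.exp (176 / 100800 * l) := by
      have := Real.add_one_le_exp (176 / 100800 * l)
      linarith
    calc (M : ℝ) ^ 3 * e * (2 * V) ≤ Real.exp (3 * (l / 1400)) * Real.exp (l / 100) *
        (Real.exp (176 / 100800 * l) * Real.exp (l ^ 40 / 2 - l / 8)) := by gcongr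
      _ = Real.exp (l ^ 40 / 2 - l / 9) := by
          rw [← Real.exp_add, ← Real.exp_add, ← Real.exp_add]
          congr 1
          ring
  have hlogF : ∀ m : ℕ, 1 ≤ m → m ≤ F → Real.log m ≤ l ^ 40 := by
    intro m hm1 hm
    have g1 : (m : ℝ) ≤ Real.exp (l ^ 40) := by
      refine le_trans (by exact_mod_cast hm) (hFle.trans ?_)
      apply Real.exp_le_exp.2
      linarith
    rw [Real.log_le_iff_le_exp (by exact_mod_cast hm1)]
    exact g1
  -- the bound for one pair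
  set H : ℕ → ℝ := fun m => (1 / (Nat.totient m : ℝ)) * ∑ f ∈ m.divisors.filter (fun f => f ≠ 1), T f with hH
  have hH0 : ∀ m, 0 ≤ H m := fun m => mul_nonneg (by positivity) (sum_nonneg fun f _ => hT0 f)
  have hone : ∀ x ∈ Ioc V (2 * V), ∀ e ∈ (Icc 1 Q).filter (fun e => (b x e).Coprime (M ^ 3 * x * e)),
      |psiLogAP X (M ^ 3 * x * e) (b x e) - psiLog1 X / (Nat.totient (M ^ 3 * x * e) : ℝ)| ≤
        H (M ^ 3 * e * x) + 4 * l ^ 120 := by
    intro x hx e he
    rw [mem_filter, mem_Icc] at he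
    rw [mem_Ioc] at hx
    have hm1 : 1 ≤ M ^ 3 * x * e := by
      have g1 : 1 ≤ M ^ 3 := Nat.one_le_pow _ _ hM1
      have g2 : 1 * 1 * 1 ≤ M ^ 3 * x * e := Nat.mul_le_mul (Nat.mul_le_mul g1 (by omega)) he.1.1
      omega
    have hmF : M ^ 3 * x * e ≤ F := by
      refine le_trans ?_ (hmod e he.1.2)
      calc M ^ 3 * x * e = M ^ 3 * e * x := by ring
        _ ≤ _ := Nat.mul_le_mul_left _ hx.2
    have g1 := disc_le X hX1 (M ^ 3 * x * e) (b x e) hm1 he.2
    have g2 : M ^ 3 * e * x = M ^ 3 * x * e := by ring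
    rw [g2]
    refine g1.trans ?_
    have g3 := omega_le_log (M ^ 3 * x * e) hm1
    have g4 := hlogF _ hm1 hmF
    rw [hlogX]
    have g5 : 2 * ((M ^ 3 * x * e).primeFactors.card * (l ^ 40) ^ 2) ≤ 4 * l ^ 120 := by
      have g6 : ((M ^ 3 * x * e).primeFactors.card : ℝ) ≤ 2 * l ^ 40 := by linarith
      calc 2 * (((M ^ 3 * x * e).primeFactors.card : ℝ) * (l ^ 40) ^ 2) ≤ 2 * (2 * l ^ 40 * (l ^ 40) ^ 2) := by
            gcongr
        _ = 4 * l ^ 120 := by ring
    exact add_le_add le_rfl g5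
  have hsum : ∑ x ∈ Ioc V (2 * V), ∑ e ∈ (Icc 1 Q).filter (fun e => (b x e).Coprime (M ^ 3 * x * e)),
      |psiLogAP X (M ^ 3 * x * e) (b x e) - psiLog1 X / (Nat.totient (M ^ 3 * x * e) : ℝ)| ≤
      ∑ e ∈ Icc 1 Q, ∑ x ∈ Ioc V (2 * V), (H (M ^ 3 * e * x) + 4 * l ^ 120) := by
    rw [sum_comm (s := Icc 1 Q)]
    refine sum_le_sum fun x hx => (sum_le_sum (hone x hx)).trans ?_
    refine sum_le_sum_of_subset_of_nonneg (filter_subset _ _) fun e _ _ => ?_
    exact add_nonneg (hH0 _) (by positivity)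
  refine hsum.trans ?_
  have hA : ∀ e ∈ Icc 1 Q, ∑ x ∈ Ioc V (2 * V), (H (M ^ 3 * e * x) + 4 * l ^ 120) ≤
      X * Real.exp (-(l / 35)) * (2 ^ K * l ^ (40 * K)) + V * (4 * l ^ 120) := by
    intro e he
    rw [mem_Icc] at he
    rw [sum_add_distrib, sum_const, nsmul_eq_mul, Nat.card_Ioc]
    refine add_le_add ?_ (le_of_eq ?_)
    · have hc : 1 ≤ M ^ 3 * e := by
        have g1 : 1 ≤ M ^ 3 := Nat.one_le_pow _ _ hM1
        have g2 : 1 * 1 ≤ M ^ 3 * e := Nat.mul_le_mul g1 he.1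
        omega
      refine (lin_sum H hH0 (M ^ 3 * e) V F hc (hmod e he.2)).trans ?_
      refine (swap T hT0 F).trans ?_
      have g1 := hk0 F
      simp only [one_pow] at g1
      have g2 : 0 ≤ ∑ k ∈ Icc 1 F, 1 / (Nat.totient k : ℝ) := sum_nonneg fun _ _ => by positivity
      have hF1 : 1 ≤ F := by
        rw [hF, Nat.one_le_floor_iff]
        apply Real.one_le_exp
        have g5 : l ^ 1 ≤ l ^ 40 := pow_le_pow_right₀ (by linarith) (by norm_num)
        rw [pow_one] at g5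
        linarith
      have g3 : (1 + Real.log F) ^ K ≤ 2 ^ K * l ^ (40 * K) := by
        have g4 := hlogF F hF1 le_rfl
        have g5 : 0 ≤ Real.log F := Real.log_nonneg (by exact_mod_cast hF1)
        calc (1 + Real.log F) ^ K ≤ (2 * l ^ 40) ^ K := pow_le_pow_left₀ (by linarith) (by linarith) _
          _ = 2 ^ K * l ^ (40 * K) := by rw [mul_pow, ← pow_mul]
      exact mul_le_mul hBV (g1.trans g3) g2 (by positivity)
    · congr 1
      have : 2 * V - V = V := by omega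
      rw [this]
  refine (sum_le_sum hA).trans ?_
  rw [sum_const, nsmul_eq_mul, Nat.card_Icc, Nat.add_sub_cancel]
  have hXe : X = Real.exp (l ^ 40) := rfl
  have hB1 : (Q : ℝ) * (X * Real.exp (-(l / 35)) * (2 ^ K * l ^ (40 * K))) ≤
      X * Real.exp (-(l / 60)) / 2 := by
    have g1 : 2 ^ K * l ^ (40 * K) ≤ Real.exp (1 / 525 * l) / 2 := by
      rw [pow_succ] at e2
      linarith
    calc (Q : ℝ) * (X * Real.exp (-(l / 35)) * (2 ^ K * l ^ (40 * K))) ≤
        Real.exp (l / 100) * (X * Real.exp (-(l / 35)) * (Real.exp (1 / 525 * l) / 2)) := by gcongr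
      _ = X * (Real.exp (l / 100) * Real.exp (-(l / 35)) * Real.exp (1 / 525 * l)) / 2 := by ring
      _ = X * Real.exp (-(l / 60)) / 2 := by
          rw [← Real.exp_add, ← Real.exp_add]
          congr 3
          ring
  have hB2 : (Q : ℝ) * (V * (4 * l ^ 120)) ≤ X * Real.exp (-(l / 60)) / 2 := by
    have g1 : l ^ 1 ≤ l ^ 40 := pow_le_pow_right₀ (by linarith) (by norm_num)
    have g2 : l ^ 40 / 2 - l / 8 + l / 100 + 59 / 60 * l ≤ l ^ 40 - l / 60 := by
      have g3 : 2 * l ≤ l ^ 40 := by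
        have g4 : l ^ 2 ≤ l ^ 40 := pow_le_pow_right₀ (by linarith) (by norm_num)
        nlinarith
      linarith
    calc (Q : ℝ) * (V * (4 * l ^ 120)) ≤
        Real.exp (l / 100) * (Real.exp (l ^ 40 / 2 - l / 8) * (Real.exp (59 / 60 * l) / 2)) := by
          gcongr
          linarith
      _ = Real.exp (l ^ 40 / 2 - l / 8 + l / 100 + 59 / 60 * l) / 2 := by
          rw [show l ^ 40 / 2 - l / 8 + l / 100 + 59 / 60 * l =
            l / 100 + ((l ^ 40 / 2 - l / 8) + 59 / 60 * l) by ring, Real.exp_add, Real.exp_add]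
          ring
      _ ≤ Real.exp (l ^ 40 - l / 60) / 2 := by
          gcongr
      _ = X * Real.exp (-(l / 60)) / 2 := by
          rw [hXe, ← Real.exp_add]
          congr 2
  calc (Q : ℝ) * (X * Real.exp (-(l / 35)) * (2 ^ K * l ^ (40 * K)) + V * (4 * l ^ 120)) =
      (Q : ℝ) * (X * Real.exp (-(l / 35)) * (2 ^ K * l ^ (40 * K))) + (Q : ℝ) * (V * (4 * l ^ 120)) := by
        ring
    _ ≤ _ := by linarith

end Pool.Agent.N124.SP
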